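import Pool.Agent.H40.Lv4

set_option autoImplicit false

namespace Pool.Agent.Results.MP_5f54a2_lc.Model

open Pool.Agent.H42.ZF Pool.Agent.H40 Pool.Agent.H40.Js Pool.Agent.H40.Lv Set Filter Cardinal
open Pool.Agent.H40.Bspt (Fm IsZF)

instance nf : NF Unit := ⟨⊤, fun _ => tendsto_top, tendsto_top⟩

variable {V : Type} [AddCommGroup V] [Module (ZMod 2) V] {θ : Cardinal.{0}} {K : Type}

def ctx (H : Hv θ V K) (hE : ∀ t, #(El Unit Unit t) < θ) : Ctx (PV θ V K) (GV V) Unit Unit where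
  p0 := ⟨fun _ => none, by simpa using H.reg.pos⟩
  R _ _ := True
  R1 S hS := Eventually.of_forall fun _ => ⟨(), mem_top.1 hS ▸ mem_univ _, trivial⟩
  R2 J hJ q _ := Eventually.of_forall fun _ => ⟨1, hJ.choose_spec.2 1 (fx_one _), trivial, q, le_rfl,
    (one_smul _ q).ge⟩
  na _ := natN 0
  hs _ := hs_nat 0
  eqv g _ _ _ := nat_act g 0
  inj _ _ _ _ _ := rfl
  dist t := fn_dist H.reg (hE t)

theorem hv {θ : Cardinal.{0}} {K : Type} [AddCommGroup K] (h1 : θ.IsRegular) (h2 : ℵ₀ < θ)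
    (h3 : θ ≤ #K) : Hv θ (K →₀ ZMod 2) K := by
  refine ⟨h1, h2, h3, fun W hW => ?_⟩
  obtain ⟨c, hc⟩ := ex_off h2.le h3 (D := ⋃ x : W, (x.1.support : Set K))
    ((card_iUnion_lt_iff_forall_of_isRegular h1 (by simpa using hW)).2 fun x =>
      (Finset.finite_toSet _).lt_aleph0.trans h2)
  refine ⟨Finsupp.lmapDomain _ _ (· + c), fun x a b => Finsupp.ext fun k => by_contra fun e =>
    hc k (mem_iUnion.2 ⟨⟨x, a⟩, by simpa using e⟩) (mem_iUnion.2 ⟨⟨_, b⟩, ?_⟩)⟩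
  simpa [Finsupp.mapDomain_apply (add_left_injective c)] using e

def mtF : Fm := allF (allF (impF (appF 2 1 0) (.and (.and (appF 2 0 1) (.neg (.eq 1 0)))
  (allF (impF (appF 3 2 0) (.eq 1 0))))))
def selF : Fm := .ex (allF (allF (impF (appF 3 1 0) (fi (.mem 1 2) (.neg (.mem 0 2))))))
def homF : Fm := allF (allF (allF (allF (impF (.mem 3 5) (impF (.mem 2 5) (impF (.mem 1 5)
  (impF (pairF 0 3 2) (impF (appF 6 0 1) (fi (.mem 1 4) (.neg (fi (.mem 3 4) (.mem 2 4))))))))))))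

theorem sl_sel (H : Hv θ V K) {U : Ult (PV θ V K)} {ρ : M U} (h1 : L (GV V) U ρ)
    (h2 : SL (GV V) U mtF fun _ => ρ) : SL (GV V) U selF fun _ => ρ := by
  obtain ⟨ρ, rfl⟩ := mk_surj ρ
  simp only [mtF, selF, SL, sl_all, sl_imp, sl_fi] at h2 ⊢
  have h3 : Mt ρ U := fun a b e => by
    have ⟨la, lb⟩ := app_L h1 e
    obtain ⟨⟨k, l⟩, m⟩ := h2 a la b lb ((sl_app h1 la lb).2 e)
    exact ⟨⟨(sl_app h1 lb la).1 k, l⟩, fun c f => m c (app_L h1 f).2
      ((sl_app h1 la (app_L h1 f).2).2 f)⟩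
  obtain ⟨c, h4, h5⟩ := L_cases (R := fun U => Mt ρ U → ∃ c, L (GV V) U c ∧ ∀ a b,
    App (E U) (mk U ρ) a b → (E U a c ↔ ¬ E U b c)) (fun y W hy e => by
      unfold Mt
      rw [e]
      refine by_dense (H := Mt y) (R := fun U => ∃ c, L (GV V) U c ∧ ∀ a b,
        App (E U) (mk U y) a b → (E U a c ↔ ¬ E U b c)) (fun p hp => ?_) W
      obtain ⟨c, a, b⟩ := sel H hy hp
      exact ⟨p, le_rfl, b.imp fun U f => ⟨_, L_hs a U, f⟩⟩) U h1 h3
  exact ⟨c, h4, fun a la b lb e => h5 a b ((sl_app h1 la lb).1 e)⟩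

theorem sl_hom (H : Hv θ V K) (hV : Infinite V) (τ : Nm (PV θ V K)) (v : V) (U : Ult (PV θ V K))
    (h : L (GV V) U (mk U τ) ∧
      SL (GV V) U homF fun i => mk U (cs τ (cs (setN xV univ) fun _ => setN tN univ) i)) :
    ¬ E U (mk U (xV v)) (mk U τ) := by
  refine by_dense (H := fun U => L (GV V) U (mk U τ) ∧ SL (GV V) U homF fun i =>
    mk U (cs τ (cs (setN xV univ) fun _ => setN tN univ) i))
    (R := fun U => ¬ E U (mk U (xV v)) (mk U τ)) (fun p hp => ?_) U h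
  obtain ⟨q, hq, y, hy, e⟩ := L_elim (hp.imp fun _ h => h.1)
  refine ⟨q, hq, fun W hW => ?_⟩
  dsimp only
  rw [show mk W τ = _ from e W hW]
  refine no_hom H hV hy (fun a b U hU => ?_) v W hW
  have := (hp.mono hq U hU).2
  simp only [homF, SL, sl_all, sl_imp, sl_fi] at this
  have l := fun a : V => L_hs (xV_hs (θ := θ) (K := K) a) U
  have l' := L_hs (kp_hs (xV_hs (θ := θ) (K := K) a) (xV_hs b)) U
  dsimp only
  rw [← show mk U τ = _ from e U hU]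
  exact this _ (l a) _ (l b) _ (l (a + b)) _ l' (setN_intro _ (mem_univ _) U)
    (setN_intro _ (mem_univ _) U) (setN_intro _ (mem_univ _) U)
    ((sl_pair l' (l a) (l b)).2 (isPair_kpair _ _)) ((sl_app (L_hs RN_hs U) l' (l _)).2
      ⟨_, setN_intro tN (mem_univ (a, b)) U, isPair_kpair _ _⟩)

theorem rn_inv (H : Hv θ V K) {U : Ult (PV θ V K)} {a b c : V} {p : M U}
    (h1 : IsPair (E U) p (mk U (xV a)) (mk U (xV b)))
    (h2 : App (E U) (mk U (setN tN univ)) p (mk U (xV c))) : c = a + b := by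
  obtain ⟨q, h3, h4⟩ := h2
  rw [h1.uniq (isPair_kpair _ _)] at h4
  rw [h4.uniq (isPair_kpair _ _)] at h3
  refine setN_cases (R := fun _ => c = a + b) (fun t W _ e => ?_) U h3
  obtain ⟨e1, e2⟩ := (e ▸ isPair_kpair _ _ : IsPair (E W) (mk W (tN t)) _ _).inj (isPair_kpair _ _)
  obtain ⟨e3, e4⟩ := (e1 ▸ isPair_kpair _ _ : IsPair (E W) (mk W (kpair (xV t.1) (xV t.2))) _ _).inj
    (isPair_kpair _ _)
  rw [xV_inj H _ _ W e2, xV_inj H _ _ W e3, xV_inj H _ _ W e4]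

theorem main (H : Hv θ V K) (hV : Infinite V) (hE : ∀ t, #(El Unit Unit t) < θ)
    (h2 : #(T ((Σ t, El Unit Unit t) ⊕ Fin 3) × T ((Σ t, El Unit Unit t) ⊕ Fin 3)) < θ)
    (φ : V →ₗ[ZMod 2] ZMod 2) (v : V) (hφ : φ v = 1) :
    ∃ (M : Type) (E : M → M → Prop), IsZF E ∧ Jz.CompK2 E ∧ ¬ Jz.CompLin E := by
  obtain ⟨U, -, J, e, e1, e2, e3, e4⟩ := ex_js3 (ctx H hE) (B := Fin 3)
    ![setN xV univ, setN tN univ, xV v] (by
      intro b; fin_cases b; exacts [XN_hs, RN_hs, xV_hs v]) (fn_dist H.reg h2) _ le_rfl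
    (fun τ => DD τ (setN xV univ)) (fun _ => DD_lower _ _) fun _ => DD_dense _ _
  refine ⟨J.M, J.E, J.zf, comp_of_sel J.zf fun ρ hρ => ?_, fun hc => ?_⟩
  · have := (e1 selF fun _ => ρ).2 (sl_sel H (e3 ρ) ((e1 mtF fun _ => ρ).1 (by
      simpa only [mtF, Bspt.Sat, sat_all, sat_imp, sat_app, Bspt.cons] using hρ)))
    simpa only [selF, Bspt.Sat, sat_all, sat_imp, sat_fi, sat_app, Bspt.cons] using this
  obtain ⟨X, hX⟩ := e2 0
  obtain ⟨R, hR⟩ := e2 1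
  obtain ⟨o, ho⟩ := e2 2
  have me : ∀ a b, J.E a b ↔ E U (e a) (e b) := fun a b => e1 (.mem 0 1) (Bspt.cons a fun _ => b)
  have ox : J.E o X := (me _ _).2 (by rw [hX, ho]; exact setN_intro _ (mem_univ _) U)
  have gen : ∀ z, J.E z X → ∃ a, e z = mk U (xV a) := fun z hz => by
    obtain ⟨τ, q, k1, k2, k3⟩ := e4 z
    obtain ⟨i, -, k⟩ := DD_use k2 k3 (by rw [← k1]; exact hX ▸ (me _ _).1 hz)
    exact ⟨_, k1.trans k⟩
  haveI : Nonempty V := ⟨v⟩
  choose! f hf using gen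
  obtain ⟨S, -, hS⟩ := J.ex_fin (finite_singleton (Zt.pr J.E (Zt.pr J.E o o) o))
  obtain ⟨c, hc⟩ := hc X R S fun D d1 d2 => by
    obtain ⟨c, -, hc⟩ := J.ex_fin ((J.fin_ext d2).subset (sep_subset _ fun z => φ (f z) = 1))
    replace hc : ∀ z, J.E z D → (J.E z c ↔ φ (f z) = 1) := fun z a => (hc z).trans (and_iff_right a)
    refine ⟨c, fun x y z a b d => ⟨fun ⟨p, k, l⟩ => ?_, fun ⟨p, k, l⟩ => ?_⟩⟩
    · have k' := (sl_pair (e3 p) (e3 x) (e3 y)).1 ((e1 (pairF 0 1 2)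
        (Bspt.cons p (Bspt.cons x fun _ => y))).1 (by
          simpa only [pairF, Bspt.Sat, sat_all, sat_fi, sat_or, Bspt.cons, Bspt.IsPair] using k))
      have l' := (sl_app (e3 R) (e3 p) (e3 z)).1 ((e1 (appF 0 1 2)
        (Bspt.cons R (Bspt.cons p fun _ => z))).1 (sat_app.2 l))
      rw [hc z d, hc x a, hc y b, rn_inv H (a := f x) (b := f y) (c := f z)
        (by rw [← hf x (d1 _ a), ← hf y (d1 _ b)]; exact k')
        (by rw [← hf z (d1 _ d)]; exact hR ▸ l'), map_add]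
      generalize φ (f x) = s, φ (f y) = t
      revert s t
      decide
    · obtain ⟨rfl, rfl⟩ := Zt.pr_inj J.zf ((hS _).1 ((Zt.app_pr J.zf).1 l))
      obtain ⟨rfl, rfl⟩ := J.zf.pair_inj k (Zt.pr_sp J.zf _ _)
      rw [hc _ d, xV_inj H _ _ U ((hf _ ox).symm.trans ho)]
      exact iff_of_true hφ Iff.rfl
  obtain ⟨τ, hτ⟩ := mk_surj (e c)
  refine sl_hom H hV τ v U ⟨hτ ▸ e3 c, ?_⟩ ?_
  · refine (iff_of_eq (congrArg _ (funext ?_))).1 ((e1 homF (Bspt.cons c (Bspt.cons X fun _ => R))).1 ?_)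
    · rintro (_ | _ | i)
      exacts [hτ.symm, hX, hR]
    · simp only [homF, Bspt.Sat, sat_all, sat_imp, sat_fi, sat_app, Bspt.cons]
      exact fun x y z p a b d k l => (hc x y z a b d).1 ⟨p, by
        simpa only [pairF, Bspt.Sat, sat_all, sat_fi, sat_or, Bspt.cons, Bspt.IsPair] using k, l⟩
  · rw [hτ]
    exact ho ▸ (me _ _).1 (((hc o o o ox ox ox).2 ⟨_, Zt.pr_sp J.zf _ _,
      (Zt.app_pr J.zf).2 ((hS _).2 rfl)⟩).2 Iff.rfl)

theorem result : ∃ (M : Type) (E : M → M → Prop), IsZF E ∧ Jz.CompK2 E ∧ ¬ Jz.CompLin E := by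
  let B := (Σ t, El Unit Unit t) ⊕ Fin 3
  let θ := Order.succ (max ℵ₀ #(T B × T B))
  have h2 : #(T B × T B) < θ := (le_max_right _ _).trans_lt (Order.lt_succ _)
  have h3 : ℵ₀ < θ := (le_max_left _ _).trans_lt (Order.lt_succ _)
  have h4 : θ ≤ #(θ.out → ZMod 2) := by simpa using (cantor θ).le
  haveI : Infinite (θ.out → ZMod 2) := infinite_iff.2 (h3.le.trans h4)
  exact main (hv (K := θ.out → ZMod 2) (isRegular_succ (le_max_left _ _)) h3 h4) inferInstance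
    (fun t => lt_of_le_of_lt (mk_le_of_injective
      (f := fun x => ((T.base (.inl ⟨t, x⟩), T.base (.inl ⟨t, x⟩)) : T B × T B))
      fun a b h => by simpa [B] using h) h2) h2 (Finsupp.lapply 0) (Finsupp.single 0 1) (by simp)

end Pool.Agent.Results.MP_5f54a2_lc.Model
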